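import Pool.Agent.Y521.SD.Stm

set_option autoImplicit false

/-!
# The product of the circle and the three-sphere is an affine manifold
-/

open Set Filter Topology Metric Function MeasureTheory

noncomputable section

namespace Pool.Agent.Y288.SD

open Pool.Agent.Y522 Pool.Agent.Y521.SD

/-- multiplication by two -/
def A2 : E 4 ≃L[ℝ] E 4 := ContinuousLinearEquiv.smulLeft (Units.mk0 (2 : ℝ) two_ne_zero)

theorem A2_apply (x : E 4) : A2 x = (2 : ℝ) • x := rfl

theorem A2_pow (k : ℕ) (x : E 4) : (A2 ^ k) x = (2 : ℝ) ^ k • x := by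
  induction k with
  | zero =>
    rw [pow_zero, pow_zero, one_smul]
    rfl
  | succ k ih =>
    have h : (A2 ^ (k + 1)) x = A2 ((A2 ^ k) x) := by
      rw [pow_succ']
      rfl
    rw [h, ih, A2_apply, smul_smul, ← pow_succ']

theorem pS_snd {x : E 4} (hx : x ≠ 0) : ((pS x).2 : E 4) = ‖x‖⁻¹ • x := by
  unfold pS
  rw [dif_neg hx]

theorem sS (hQ : StQuot) : StS := by
  refine hQ 4 (Circle × sphere (0 : E 4) 1) A2 pS ?_ ?_ ?_ ?_ ?_
  · intro x
    rw [A2_apply, norm_smul]
    norm_num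
  · -- continuity
    apply ContinuousOn.prodMk
    · have h1 : ContinuousOn (fun x : E 4 => 2 * Real.pi * Real.logb 2 ‖x‖) {x | x ≠ 0} := by
        apply ContinuousOn.mul continuousOn_const
        unfold Real.logb
        apply ContinuousOn.div_const
        apply ContinuousOn.log continuous_norm.continuousOn
        intro x hx
        exact norm_ne_zero_iff.2 hx
      exact Circle.exp.continuous.comp_continuousOn h1
    · rw [Topology.IsInducing.subtypeVal.continuousOn_iff]
      have h1 : ContinuousOn (fun x : E 4 => ‖x‖⁻¹ • x) {x | x ≠ 0} := by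
        have h2 : ContinuousOn (fun x : E 4 => ‖x‖⁻¹) {x | x ≠ 0} :=
          continuous_norm.continuousOn.inv₀ (fun x hx => norm_ne_zero_iff.2 hx)
        exact ContinuousOn.smul h2 (continuousOn_id (α := E 4))
      exact h1.congr fun x hx => pS_snd hx
  · -- surjectivity
    rintro ⟨z, σ⟩
    have hσ : ‖(σ : E 4)‖ = 1 := by simp
    set a : ℝ := Complex.arg z with ha
    set b : ℝ := Int.fract (a / (2 * Real.pi)) with hb
    have hb0 : 0 ≤ b := Int.fract_nonneg _
    have hb1 : b < 1 := Int.fract_lt_one _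
    have h2b : (0 : ℝ) < 2 ^ b := Real.rpow_pos_of_pos two_pos _
    have hn : ‖((2 : ℝ) ^ b) • (σ : E 4)‖ = 2 ^ b := by
      rw [norm_smul, hσ, mul_one, Real.norm_of_nonneg h2b.le]
    have hne : ((2 : ℝ) ^ b) • (σ : E 4) ≠ 0 := by
      rw [← norm_ne_zero_iff, hn]; exact h2b.ne'
    refine ⟨((2 : ℝ) ^ b) • (σ : E 4), ?_, ?_, ?_⟩
    · rw [hn]
      exact Real.one_le_rpow one_le_two hb0
    · rw [hn]
      calc (2 : ℝ) ^ b ≤ 2 ^ (1 : ℝ) := Real.rpow_le_rpow_of_exponent_le one_le_two hb1.le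
        _ = 2 := Real.rpow_one 2
    · apply Prod.ext
      · change Circle.exp (2 * Real.pi * Real.logb 2 ‖((2 : ℝ) ^ b) • (σ : E 4)‖) = z
        rw [hn, Real.logb_rpow two_pos (by norm_num)]
        have h1 : 2 * Real.pi * b = a - (⌊a / (2 * Real.pi)⌋ : ℝ) * (2 * Real.pi) := by
          have h2 := Int.floor_add_fract (a / (2 * Real.pi))
          rw [hb]
          have h3 : Int.fract (a / (2 * Real.pi)) = a / (2 * Real.pi) - ⌊a / (2 * Real.pi)⌋ := by
            linarith
          rw [h3]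
          have hpi := Real.pi_pos
          field_simp
        rw [h1, Circle.periodic_exp.sub_int_mul_eq, ha]
        exact Circle.exp_arg z
      · apply Subtype.ext
        rw [pS_snd hne, hn, smul_smul, inv_mul_cancel₀ h2b.ne', one_smul]
  · -- invariance
    intro x hx
    have hx0 : 0 < ‖x‖ := norm_pos_iff.2 hx
    have h2x : A2 x ≠ 0 := by
      rw [A2_apply]
      exact smul_ne_zero two_ne_zero hx
    have hn : ‖A2 x‖ = 2 * ‖x‖ := by
      rw [A2_apply, norm_smul]; norm_num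
    apply Prod.ext
    · change Circle.exp (2 * Real.pi * Real.logb 2 ‖A2 x‖) =
        Circle.exp (2 * Real.pi * Real.logb 2 ‖x‖)
      rw [hn, Real.logb_mul two_ne_zero hx0.ne', Real.logb_self_eq_one one_lt_two,
        show 2 * Real.pi * (1 + Real.logb 2 ‖x‖) = 2 * Real.pi * Real.logb 2 ‖x‖ + 2 * Real.pi by ring]
      exact Circle.periodic_exp _
    · apply Subtype.ext
      rw [pS_snd h2x, pS_snd hx, hn, A2_apply, smul_smul]
      congr 1
      field_simp
  · -- fibres
    intro u v hu hv huv h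
    have hu0 : 0 < ‖u‖ := norm_pos_iff.2 hu
    have hv0 : 0 < ‖v‖ := norm_pos_iff.2 hv
    have h1 : Circle.exp (2 * Real.pi * Real.logb 2 ‖v‖) =
        Circle.exp (2 * Real.pi * Real.logb 2 ‖u‖) := (congrArg Prod.fst h).symm
    have h2 : ‖u‖⁻¹ • u = ‖v‖⁻¹ • v := by
      have h3 : ((pS u).2 : E 4) = ((pS v).2 : E 4) := by rw [h]
      rwa [pS_snd hu, pS_snd hv] at h3
    obtain ⟨m, hm⟩ := Circle.exp_eq_exp.1 h1
    have hpi := Real.pi_pos
    have h3 : Real.logb 2 ‖v‖ = Real.logb 2 ‖u‖ + m := by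
      have h4 : 2 * Real.pi * Real.logb 2 ‖v‖ = 2 * Real.pi * (Real.logb 2 ‖u‖ + m) := by
        rw [hm]; ring
      exact mul_left_cancel₀ (by positivity) h4
    have h5 : Real.logb 2 ‖u‖ ≤ Real.logb 2 ‖v‖ :=
      Real.logb_le_logb_of_le one_lt_two hu0 huv
    have h6 : (0 : ℝ) ≤ m := by linarith
    have h7 : (0 : ℤ) ≤ m := by exact_mod_cast h6
    obtain ⟨k, rfl⟩ := Int.eq_ofNat_of_zero_le h7
    refine ⟨k, ?_⟩
    have h8 : ‖v‖ = 2 ^ k * ‖u‖ := by
      have h9 : Real.logb 2 (2 ^ k * ‖u‖) = Real.logb 2 ‖u‖ + k := by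
        rw [Real.logb_mul (by positivity) hu0.ne', Real.logb_pow, Real.logb_self_eq_one one_lt_two]
        ring
      have h10 : Real.logb 2 ‖v‖ = Real.logb 2 (2 ^ k * ‖u‖) := by
        rw [h9, h3]; push_cast; rfl
      exact Real.logb_injOn_pos one_lt_two (show 0 < ‖v‖ from hv0)
        (show 0 < 2 ^ k * ‖u‖ by positivity) h10
    rw [A2_pow]
    calc v = ‖v‖ • (‖v‖⁻¹ • v) := by rw [smul_smul, mul_inv_cancel₀ hv0.ne', one_smul]
      _ = ‖v‖ • (‖u‖⁻¹ • u) := by rw [h2]
      _ = (2 : ℝ) ^ k • u := by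
          rw [smul_smul, h8]
          congr 1
          field_simp

end Pool.Agent.Y288.SD
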